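import Pool.Agent.W583.GT.Occ
import Pool.Agent.W880.GM.Exc

/-!
Project GT (helper78), GT-5: squares of primes `> z`.
-/

set_option autoImplicit false

namespace Pool.Agent.W583.GT

open Finset Pool.Agent.W78.GT
open Pool.Agent.W880.GM (tail_all tail_prime)

variable {t c : ℤ}

lemma toZ_mem {X₁ X₂ : ℝ} {e : Tr} (he : e ∈ tri t c X₁ X₂) : toZ e ∈ RR t c :=
  (mem_tri.1 he).2.2.2.2.1

/-- weight of an occupancy -/
noncomputable def wt (N k : ℕ) : ℝ := (k : ℝ) * (Nat.totient N : ℝ) / (N : ℝ) ^ 3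

lemma wt_nonneg (N k : ℕ) : 0 ≤ wt N k := by unfold wt; positivity

lemma wt_mul {N M k j : ℕ} (hco : Nat.Coprime N M) : wt (N * M) (k * j) = wt N k * wt M j := by
  unfold wt
  rw [Nat.totient_mul hco]
  push_cast
  rw [div_mul_div_comm]
  congr 1
  · ring
  · ring

lemma totient_leR (N : ℕ) : (Nat.totient N : ℝ) ≤ N := by exact_mod_cast Nat.totient_le N

lemma wt_sq {l : ℕ} (hl : 0 < l) (k : ℕ) : wt (l ^ 2) (k * l ^ 2) ≤ k / (l : ℝ) ^ 2 := by
  have hl' : (0 : ℝ) < l := by exact_mod_cast hl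
  unfold wt
  have h1 := totient_leR (l ^ 2)
  rw [div_le_div_iff₀ (by positivity) (by positivity)]
  push_cast at h1 ⊢
  calc (k : ℝ) * (l : ℝ) ^ 2 * (Nat.totient (l ^ 2) : ℝ) * (l : ℝ) ^ 2
      ≤ (k : ℝ) * (l : ℝ) ^ 2 * (l : ℝ) ^ 2 * (l : ℝ) ^ 2 := by gcongr
    _ = _ := by ring

lemma wt_q {q : ℕ} (hq : 0 < q) : wt q (2 * q) ≤ 2 / (q : ℝ) := by
  have hq' : (0 : ℝ) < q := by exact_mod_cast hq
  unfold wt
  have h1 := totient_leR q
  rw [div_le_div_iff₀ (by positivity) (by positivity)]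
  push_cast
  calc (2 : ℝ) * (q : ℝ) * (Nat.totient q : ℝ) * (q : ℝ)
      ≤ (2 : ℝ) * (q : ℝ) * (q : ℝ) * (q : ℝ) := by gcongr
    _ = _ := by ring

lemma wt_all {l : ℕ} (hl : l.Prime) : wt (l ^ 2) (l ^ 4 + l ^ 3) ≤ 1 := by
  have hl0 : 0 < l := hl.pos
  unfold wt
  rw [Nat.totient_prime_pow hl (by norm_num), div_le_one (by positivity)]
  obtain ⟨k, rfl⟩ : ∃ k, l = k + 1 := ⟨l - 1, by have := hl.one_lt; omega⟩
  rw [Nat.add_sub_cancel]
  push_cast
  have hk : (0 : ℝ) ≤ k := by positivity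
  have e : (((k : ℝ) + 1) ^ 2) ^ 3 - (((k : ℝ) + 1) ^ 4 + ((k : ℝ) + 1) ^ 3) *
      (((k : ℝ) + 1) ^ (2 - 1) * k) = ((k : ℝ) + 1) ^ 4 := by
    norm_num
    ring
  have : 0 ≤ ((k : ℝ) + 1) ^ 4 := by positivity
  linarith

/-- **GT-5** -/
theorem sqt_of (hG : Good t c) (hequt : S_EQUT t c) (hlarge : S_LARGET t c) : S_SQT t c := by
  classical
  obtain ⟨C, hC, hE⟩ := hequt
  obtain ⟨A, hL⟩ := hlarge
  refine ⟨6 * C + 1, by positivity, fun z hz => ?_⟩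
  have hzR : (2 : ℝ) ≤ z := by exact_mod_cast hz
  obtain ⟨X₁, hX₁⟩ := hL (1 / (z : ℝ)) (by positivity)
  obtain ⟨X₂, hX₂⟩ := hE (2 * A)
  refine ⟨max (Real.exp 1) (max X₁ X₂), fun X hX => ?_⟩
  have hXe : Real.exp 1 ≤ X := (le_max_left _ _).trans hX
  have hXX1 : X₁ ≤ X := ((le_max_left _ _).trans (le_max_right _ _)).trans hX
  have hXX2 : X₂ ≤ X := ((le_max_right _ _).trans (le_max_right _ _)).trans hX
  have hX1 : 1 ≤ X := by
    have := Real.add_one_le_exp (1 : ℝ)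
    linarith
  have hlog : 1 ≤ Real.log X := by
    rw [Real.le_log_iff_exp_le (by linarith)]
    exact hXe
  have hlogpow : ∀ k : ℕ, 1 ≤ Real.log X ^ k := fun k => one_le_pow₀ hlog
  set N : ℕ := ⌊Real.log X ^ A⌋₊ with hN
  set L : Finset ℕ := (Ioc z N).filter (fun l => Spl t c l) with hLdef
  set BL := (tri t c X X).filter (fun e => ∃ l : ℕ, l.Prime ∧ Real.log X ^ A < (l : ℝ) ∧
      l ^ 2 ∣ NT e) with hBL
  set B : ℕ → Finset Tr := fun l => (tri t c X X).filter (fun e => l ^ 2 ∣ NT e) with hB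
  have hsub : (tri t c X X).filter (fun e => ∃ l : ℕ, l.Prime ∧ z < l ∧ l ^ 2 ∣ NT e) ⊆
      BL ∪ L.biUnion B := by
    intro e he
    rw [mem_filter] at he
    obtain ⟨he1, l, hl, hzl, hle⟩ := he
    rw [mem_union]
    by_cases hlg : Real.log X ^ A < (l : ℝ)
    · left
      rw [hBL, mem_filter]
      exact ⟨he1, l, hl, hlg, hle⟩
    · right
      rw [mem_biUnion]
      refine ⟨l, ?_, ?_⟩
      · rw [hLdef, mem_filter, mem_Ioc]
        refine ⟨⟨hzl, Nat.le_floor (not_lt.1 hlg)⟩, hG.not_sq hl (n := e.2.1) ?_⟩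
        have h5 := (mem_tri.1 he1).2.2.2.2.1
        rw [← h5]
        unfold NT at hle
        exact_mod_cast hle
      · rw [hB, mem_filter]
        exact ⟨he1, hle⟩
  have hcardBL : (BL.card : ℝ) ≤ 1 / (z : ℝ) * X := hX₁ X hXX1
  have hcardB : ∀ l ∈ L, ((B l).card : ℝ) ≤ 6 * C * X * (1 / (l : ℝ) ^ 2) := by
    intro l hl
    rw [hLdef, mem_filter, mem_Ioc] at hl
    obtain ⟨⟨hzl, hlN⟩, hls⟩ := hl
    have hlp := hls.1
    have hlpos : (0 : ℝ) < l := by exact_mod_cast hlp.pos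
    have hlR : (l : ℝ) ≤ Real.log X ^ A :=
      (Nat.cast_le.2 hlN).trans (Nat.floor_le (by positivity))
    have hB1 : ∀ f ∈ B l, (((tri t c X X).filter (fun e => Cg (l ^ 2) e f)).card : ℝ) ≤
        C * X * (Nat.totient (l ^ 2) : ℝ) / ((l ^ 2 : ℕ) : ℝ) ^ 3 := by
      intro f _
      refine hX₂ X X X (l ^ 2) f hXX2 hX1 hX1 (by rw [pow_two]) ?_ ?_ ?_ ?_ ?_
      · have := hlogpow (2 * A); nlinarith
      · have := hlogpow (2 * A); nlinarith
      · exact Nat.one_le_pow _ _ hlp.pos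
      · push_cast
        rw [mul_comm 2 A, pow_mul]
        exact pow_le_pow_left₀ hlpos.le hlR 2
      · intro p hp hpl
        rw [(Nat.prime_dvd_prime_iff_eq hp hlp).1 (hp.dvd_of_dvd_pow hpl)]
        exact hls
    have h1 := (occ_sq hls).card_le (B l) (tri t c X X) (by
      intro e he
      rw [hB, mem_filter] at he
      exact he.1) (by
      intro e he
      rw [hB, mem_filter] at he
      refine ⟨toZ_mem he.1, ?_⟩
      have h2 := he.2
      unfold NT at h2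
      show ((l ^ 2 : ℕ) : ℤ) ∣ (e.1 : ℤ) * (e.2.2 : ℤ)
      exact_mod_cast h2) _ (by positivity) hB1
    refine h1.trans ?_
    have h2 := wt_sq hlp.pos 6
    unfold wt at h2
    calc ((6 * l ^ 2 : ℕ) : ℝ) * (C * X * (Nat.totient (l ^ 2) : ℝ) / ((l ^ 2 : ℕ) : ℝ) ^ 3)
        = C * X * (((6 * l ^ 2 : ℕ) : ℝ) * (Nat.totient (l ^ 2) : ℝ) / ((l ^ 2 : ℕ) : ℝ) ^ 3) := by
          ring
      _ ≤ C * X * ((6 : ℕ) / (l : ℝ) ^ 2) := mul_le_mul_of_nonneg_left h2 (by positivity)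
      _ = 6 * C * X * (1 / (l : ℝ) ^ 2) := by push_cast; ring
  have hsum : ∑ l ∈ L, 1 / (l : ℝ) ^ 2 ≤ 1 / (z : ℝ) := by
    refine tail_all z (by omega) L fun l hl => ?_
    rw [hLdef, mem_filter, mem_Ioc] at hl
    exact hl.1.1
  have hcard := (Finset.card_le_card hsub).trans (card_union_le _ _)
  have hcard2 : (((tri t c X X).filter
      (fun e => ∃ l : ℕ, l.Prime ∧ z < l ∧ l ^ 2 ∣ NT e)).card : ℝ) ≤
      (BL.card : ℝ) + ((L.biUnion B).card : ℝ) := by exact_mod_cast hcard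
  have hcard3 : ((L.biUnion B).card : ℝ) ≤ ∑ l ∈ L, ((B l).card : ℝ) := by
    exact_mod_cast card_biUnion_le
  refine hcard2.trans ?_
  calc (BL.card : ℝ) + ((L.biUnion B).card : ℝ)
      ≤ 1 / (z : ℝ) * X + ∑ l ∈ L, 6 * C * X * (1 / (l : ℝ) ^ 2) :=
        add_le_add hcardBL (hcard3.trans (sum_le_sum hcardB))
    _ = 1 / (z : ℝ) * X + 6 * C * X * ∑ l ∈ L, (1 / (l : ℝ) ^ 2) := by rw [mul_sum]
    _ ≤ 1 / (z : ℝ) * X + 6 * C * X * (1 / (z : ℝ)) := by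
        have : 0 ≤ 6 * C * X := by positivity
        have := mul_le_mul_of_nonneg_left hsum this
        linarith
    _ = (6 * C + 1) / z * X := by ring

end Pool.Agent.W583.GT
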