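import Pool.Agent.W583.GT.Sq

/-!
Project GT (helper78), GT-9: bad resolutions.
-/

set_option autoImplicit false

namespace Pool.Agent.W583.GT

open Finset Pool.Agent.W78.GT
open Pool.Agent.W880.GM (tail_all tail_prime)

variable {t c : ℤ}

lemma mz_pos (z : ℕ) : 0 < mz t c z := by
  classical
  unfold mz
  refine prod_pos fun l hl => ?_
  have := (mem_filter.1 hl).2.1.pos
  positivity

lemma mz_coprime {z l : ℕ} (hl : l.Prime) (h : z < l) : Nat.Coprime (mz t c z) l := by
  classical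
  unfold mz
  rw [Nat.coprime_prod_left_iff]
  intro i hi
  rw [mem_filter, mem_range] at hi
  refine Nat.Coprime.pow_left 2 ((Nat.coprime_primes hi.2.1 hl).2 ?_)
  omega

lemma mz_spl {z p : ℕ} (hp : p.Prime) (h : p ∣ mz t c z) : Spl t c p := by
  classical
  unfold mz at h
  obtain ⟨l, hl, h1⟩ := (hp.prime.dvd_finsetProd_iff _).1 h
  have hs := (mem_filter.1 hl).2
  rw [(Nat.prime_dvd_prime_iff_eq hp hs.1).1 (hp.dvd_of_dvd_pow h1)]
  exact hs

lemma occ_prod (S : Set Z3) (w : ℕ → ℝ) (hw : ∀ l, 0 ≤ w l) (I : Finset ℕ)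
    (hI : ∀ l ∈ I, l.Prime) (h : ∀ l ∈ I, ∃ κ, Occ S (l ^ 2) κ ∧ wt (l ^ 2) κ ≤ w l) :
    ∃ k, Occ S (∏ l ∈ I, l ^ 2) k ∧ wt (∏ l ∈ I, l ^ 2) k ≤ ∏ l ∈ I, w l := by
  classical
  induction I using Finset.induction_on with
  | empty =>
    refine ⟨1, ⟨Unit, univ, fun _ => (), by simp, fun _ _ => mem_univ _, fun e _ e' _ _ => ?_⟩, ?_⟩
    · refine ⟨?_, ?_, ?_⟩ <;> simp
    · simp [wt]
  | insert a I ha ih =>
    obtain ⟨k, h1, h2⟩ := ih (fun l hl => hI l (mem_insert_of_mem hl))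
      (fun l hl => h l (mem_insert_of_mem hl))
    obtain ⟨κ, h3, h4⟩ := h a (mem_insert_self _ _)
    have hco : Nat.Coprime (a ^ 2) (∏ l ∈ I, l ^ 2) := by
      rw [Nat.coprime_prod_right_iff]
      intro i hi
      refine Nat.Coprime.pow _ _ ((Nat.coprime_primes (hI a (mem_insert_self _ _))
        (hI i (mem_insert_of_mem hi))).2 ?_)
      rintro rfl
      exact ha hi
    refine ⟨κ * k, ?_, ?_⟩
    · rw [prod_insert ha]
      exact (h3.inter h1 hco).mono (fun e he => ⟨he, he⟩) le_rfl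
    · rw [prod_insert ha, prod_insert ha, wt_mul hco]
      exact mul_le_mul h4 h2 (wt_nonneg _ _) (hw a)

/-- number of classes of starting triples -/
lemma occ_start {z p : ℕ} (hp : p = 1 ∨ (Spl t c p ∧ p ≤ z)) :
    ∃ k : ℕ, wt (mz t c z) k ≤ 2 / (p : ℝ) ^ 2 ∧
      Occ {e | e ∈ RR t c ∧ (p : ℤ) ∣ e.1 ∧ (p : ℤ) ∣ e.2.2} (mz t c z) k := by
  classical
  obtain ⟨k, h1, h2⟩ := occ_prod {e | e ∈ RR t c ∧ (p : ℤ) ∣ e.1 ∧ (p : ℤ) ∣ e.2.2}
    (fun l => if l = p then 2 / (l : ℝ) ^ 2 else 1)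
    (fun l => by split_ifs <;> positivity)
    ((range (z + 1)).filter (fun l => Spl t c l)) (fun l hl => (mem_filter.1 hl).2.1) (by
      intro l hl
      have hs := (mem_filter.1 hl).2
      by_cases hlp : l = p
      · subst hlp
        refine ⟨2 * l ^ 2, occC hs, ?_⟩
        rw [if_pos rfl]
        exact_mod_cast wt_sq hs.1.pos 2
      · refine ⟨l ^ 4 + l ^ 3, (occ_all hs).mono (fun e he => he.1) le_rfl, ?_⟩
        rw [if_neg hlp]
        exact wt_all hs.1)
  refine ⟨k, ?_, h1⟩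
  have h3 : wt (mz t c z) k ≤ ∏ l ∈ (range (z + 1)).filter (fun l => Spl t c l),
      (if l = p then 2 / (l : ℝ) ^ 2 else 1) := h2
  refine h3.trans ?_
  rw [Finset.prod_ite_eq']
  rcases hp with rfl | ⟨hps, hpz⟩
  · split_ifs <;> norm_num
  · rw [if_pos (by rw [mem_filter, mem_range]; exact ⟨by omega, hps⟩)]

/-- representatives of the classes -/
def lif (N : ℕ) (c : ZMod N × ZMod N × ZMod N) : Tr :=
  (c.1.val, ((c.2.1.val : ℕ) : ℤ), c.2.2.val)

lemma rd_lif (N : ℕ) [NeZero N] (c : ZMod N × ZMod N × ZMod N) : rd N (lif N c) = c := by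
  obtain ⟨a, b, c⟩ := c
  unfold rd lif
  simp

lemma int_dvd_of_nat {q : ℕ} {e : Tr} (h : q ∣ e.1) : (q : ℤ) ∣ (toZ e).1 := by
  show (q : ℤ) ∣ (e.1 : ℤ)
  exact_mod_cast h

/-- **GT-9** -/
theorem exc2t_of (hequt : S_EQUT t c) : S_EXC2T t c := by
  classical
  obtain ⟨C, hC, hE⟩ := hequt
  refine ⟨76 * C, by positivity, ?_⟩
  intro z S Q hz hS hper hQ hQS A
  obtain ⟨X₁', hX₁'⟩ := hE (2 * A + 1)
  set m := mz t c z with hm
  have hmpos : 0 < m := mz_pos z
  have : NeZero m := ⟨hmpos.ne'⟩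
  have hmR : (1 : ℝ) ≤ m := by exact_mod_cast hmpos
  have hzR : (5 : ℝ) ≤ z := by exact_mod_cast hz
  have hlogz : 0 < Real.log z := Real.log_pos (by linarith)
  -- the candidates by class
  set Qc : (ZMod m × ZMod m × ZMod m) → Finset ℕ := fun c => Q (lif m c) with hQc
  have hQrd : ∀ e : Tr, Q e = Qc (rd m e) := by
    intro e
    have h1 := rd_eq_iff.1 (rd_lif m (rd m e))
    exact (hper _ _ h1).symm
  set qm : ℕ := (univ : Finset (ZMod m × ZMod m × ZMod m)).sup
    (fun c => (Qc c).sup id) with hqm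
  have hqle : ∀ c, ∀ q ∈ Qc c, q ≤ qm := fun c q hq =>
    (Finset.le_sup (f := id) hq).trans (Finset.le_sup (f := fun c => (Qc c).sup id) (mem_univ c))
  refine ⟨max X₁' (Real.exp (m * (qm : ℝ) ^ 2 + 1)), ?_⟩
  intro X X₁ X₂ hX hX1 hX2 hXX hX1l hX2l p hp
  have hXX1 : X₁' ≤ X := (le_max_left _ _).trans hX
  have hXe : Real.exp (m * (qm : ℝ) ^ 2 + 1) ≤ X := (le_max_right _ _).trans hX
  have hXpos : 0 < X := (Real.exp_pos _).trans_le hXe
  have hlogm : m * (qm : ℝ) ^ 2 + 1 ≤ Real.log X := by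
    rw [Real.le_log_iff_exp_le hXpos]
    exact hXe
  have hlog : 1 ≤ Real.log X := by
    have : 0 ≤ m * (qm : ℝ) ^ 2 := by positivity
    linarith
  have hlogpow : ∀ k : ℕ, 1 ≤ Real.log X ^ k := fun k => one_le_pow₀ hlog
  set N : ℕ := ⌊Real.log X ^ A⌋₊ with hN
  set L : Finset ℕ := (Ioc z N).filter (fun l => Spl t c l) with hLdef
  set s := (tri t c X₁ X₂).filter (fun e => (p ∣ e.1 ∧ p ∣ e.2.2) ∧
      ∃ q ∈ Q e, q ∣ e.1 ∧ ∃ l : ℕ, Spl t c l ∧ z < l ∧ (l : ℝ) ≤ Real.log X ^ A ∧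
        ∃ x : ℤ, (q : ℤ) * x = MM t e.1 e.2.1 e.2.2 q ∧ (l : ℤ) ∣ x ∧
          (l ∣ NT e ∨ (l : ℤ) ^ 2 ∣ x)) with hs
  set B : (ZMod m × ZMod m × ZMod m) → ℕ → ℕ → Finset Tr :=
    fun c' q l => (tri t c X₁ X₂).filter (fun e => rd m e = c' ∧ q ∣ e.1 ∧
      ∃ x : ℤ, (q : ℤ) * x = MM t e.1 e.2.1 e.2.2 q ∧ (l : ℤ) ∣ x ∧
          (l ∣ NT e ∨ (l : ℤ) ^ 2 ∣ x)) with hB
  set Γ := s.image (rd m) with hΓ
  -- covering
  have hsub : s ⊆ Γ.biUnion (fun c => (Qc c).biUnion (fun q => L.biUnion (fun l => B c q l))) := by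
    intro e he
    have he' := he
    rw [hs, mem_filter] at he'
    obtain ⟨he1, he2, q, hq, hqe, l, hl, hzl, hlX, hlx⟩ := he'
    rw [mem_biUnion]
    refine ⟨rd m e, mem_image_of_mem _ he, ?_⟩
    rw [mem_biUnion]
    refine ⟨q, by rw [← hQrd]; exact hq, ?_⟩
    rw [mem_biUnion]
    refine ⟨l, ?_, ?_⟩
    · rw [hLdef, mem_filter, mem_Ioc]
      exact ⟨⟨hzl, Nat.le_floor hlX⟩, hl⟩
    · rw [hB, mem_filter]
      exact ⟨he1, rfl, hqe, hlx⟩
  -- number of classes
  obtain ⟨k, hk, hocc⟩ := occ_start hp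
  have hppos : (0 : ℝ) < p := by
    rcases hp with rfl | ⟨hp, -⟩
    · norm_num
    · exact_mod_cast hp.1.pos
  have hΓcard : (Γ.card : ℝ) * wt m 1 ≤ 2 / (p : ℝ) ^ 2 := by
    have h1 := hocc.card_image_le s (by
      intro e he
      rw [hs, mem_filter] at he
      refine ⟨toZ_mem he.1, int_dvd_of_nat he.2.1.1, ?_⟩
      show (p : ℤ) ∣ (e.2.2 : ℤ)
      exact_mod_cast he.2.1.2)
    refine le_trans ?_ hk
    have h2 : (Γ.card : ℝ) ≤ k := by exact_mod_cast h1
    have h3 : wt (mz t c z) k = (k : ℝ) * wt m 1 := by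
      unfold wt
      rw [hm]
      push_cast
      ring
    rw [h3]
    exact mul_le_mul_of_nonneg_right h2 (wt_nonneg _ _)
  -- one class
  have hEQ : ∀ M : ℕ, 1 ≤ M → (M : ℝ) ≤ Real.log X ^ (2 * A + 1) →
      (∀ p : ℕ, p.Prime → p ∣ M → Spl t c p) → ∀ f : Tr,
      (((tri t c X₁ X₂).filter (fun e => Cg M e f)).card : ℝ) ≤
        C * X * (Nat.totient M : ℝ) / (M : ℝ) ^ 3 := by
    intro M hM1 hM2 hM3 f
    have hll : Real.log X ≤ Real.log X ^ (2 * A + 1) := by
      rw [pow_succ]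
      have := hlogpow (2 * A)
      nlinarith
    refine hX₁' X X₁ X₂ M f hXX1 hX1 hX2 hXX (hX1l.trans ?_) (hX2l.trans ?_) hM1 hM2 hM3
    · exact mul_le_mul_of_nonneg_left hll hXpos.le
    · exact mul_le_mul_of_nonneg_left hll hXpos.le
  have hCX : 0 ≤ C * X := by positivity
  have hwm : 0 ≤ wt m 1 := wt_nonneg _ _
  have hcardB : ∀ c', ∀ q ∈ Qc c', ∀ l ∈ L, ((B c' q l).card : ℝ) ≤
      C * X * wt m 1 * (12 * (1 / (q : ℝ)) * (1 / (l : ℝ) ^ 2)) +
      (if q = l then C * X * wt m 1 * (2 * (1 / (q : ℝ) ^ 2)) else 0) := by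
    intro c' q hq l hl
    rw [hLdef, mem_filter, mem_Ioc] at hl
    obtain ⟨⟨hzl, hlN⟩, hls⟩ := hl
    have hlp := hls.1
    obtain ⟨hqp, hq4, hzq⟩ := hQ _ q hq
    have hzq' : z < q := by nlinarith
    have hqqm := hqle c' q hq
    have hqpos : (0 : ℝ) < q := by exact_mod_cast hqp.pos
    have hlpos : (0 : ℝ) < l := by exact_mod_cast hlp.pos
    have hlR : (l : ℝ) ≤ Real.log X ^ A :=
      (Nat.cast_le.2 hlN).trans (Nat.floor_le (by positivity))
    have hqqmR : (q : ℝ) ≤ qm := by exact_mod_cast hqqm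
    have hq1R : (1 : ℝ) ≤ q := by exact_mod_cast hqp.one_lt.le
    have hmq2 : (m : ℝ) * (q : ℝ) ^ 2 ≤ Real.log X := by
      have : (m : ℝ) * (q : ℝ) ^ 2 ≤ m * (qm : ℝ) ^ 2 := by gcongr
      linarith
    have hBsub : B c' q l ⊆ tri t c X₁ X₂ := by
      rw [hB]
      exact filter_subset _ _
    have hofix := occ_fix m (toZ (lif m c'))
    -- `q` is split as soon as the set is not empty
    rcases (B c' q l).eq_empty_or_nonempty with hemp | ⟨e₀, he₀⟩
    · rw [hemp]
      simp only [card_empty, Nat.cast_zero]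
      have h1 : 0 ≤ C * X * wt m 1 * (12 * (1 / (q : ℝ)) * (1 / (l : ℝ) ^ 2)) := by positivity
      split_ifs
      · positivity
      · linarith
    have hqs : Spl t c q := by
      rw [hB, mem_filter] at he₀
      have h5 := (mem_tri.1 he₀.1).2.2.2.2.1
      refine spl_of_dvd hqp (n := e₀.2.1) ?_ ?_
      · rw [← h5]
        have h6 : (q : ℤ) ∣ (e₀.1 : ℤ) := by exact_mod_cast he₀.2.2.1
        exact h6.mul_right _
      · intro h6
        have h7 : q ∣ D4 t c := by
          unfold D4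
          have h8 : (q : ℤ) ∣ 4 * (t ^ 2 - 4 * c) := by
            have : 4 * (t ^ 2 - 4 * c) = 2 * (t ^ 2 - 4 * c) * 2 := by ring
            rw [this]
            exact h6.mul_right _
          have h9 := Int.natCast_dvd.1 h8
          rw [Int.natAbs_mul] at h9
          exact h9
        have h8 : q ≡ 1 [MOD q] := hq4.of_dvd h7
        have h9 : q % q = 1 % q := h8
        rw [Nat.mod_self, Nat.mod_eq_of_lt hqp.one_lt] at h9
        omega
    by_cases hql : q = l
    · -- l = q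
      rw [if_pos hql]
      subst hql
      have hco : Nat.Coprime m (q ^ 2) := Nat.Coprime.pow_right 2 (mz_coprime hqp hzq')
      have ho := hofix.inter (occqq hqs) hco
      have h1 := ho.card_le (B c' q q) (tri t c X₁ X₂) hBsub (by
        intro e he
        rw [hB, mem_filter] at he
        obtain ⟨he1, he2, he3, x, hx1, hx2, hx3⟩ := he
        refine ⟨?_, toZ_mem he1, int_dvd_of_nat he3, ?_⟩
        · rw [← rd_lif m c'] at he2
          exact rd_eq_iff.1 he2
        · show ((q ^ 2 : ℕ) : ℤ) ∣ MM t (e.1 : ℤ) e.2.1 (e.2.2 : ℤ) q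
          rw [← hx1]
          push_cast
          rw [pow_two]
          exact mul_dvd_mul_left _ hx2)
        (C * X * (Nat.totient (m * q ^ 2) : ℝ) / ((m * q ^ 2 : ℕ) : ℝ) ^ 3) (by positivity)
        (fun f _ => hEQ (m * q ^ 2) (Nat.one_le_iff_ne_zero.2
          (mul_ne_zero hmpos.ne' (pow_ne_zero _ hqp.ne_zero))) (by
            push_cast
            refine hmq2.trans ?_
            rw [pow_succ]
            have := hlogpow (2 * A)
            nlinarith) (by
            intro r hr hrd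
            rcases (Nat.Prime.dvd_mul hr).1 hrd with h | h
            · exact mz_spl hr h
            · rw [(Nat.prime_dvd_prime_iff_eq hr hqp).1 (hr.dvd_of_dvd_pow h)]
              exact hqs) f)
      refine h1.trans ?_
      have h2 : ((1 * (2 * q ^ 2) : ℕ) : ℝ) *
          (C * X * (Nat.totient (m * q ^ 2) : ℝ) / ((m * q ^ 2 : ℕ) : ℝ) ^ 3) =
          C * X * (wt m 1 * wt (q ^ 2) (2 * q ^ 2)) := by
        rw [← wt_mul hco]
        unfold wt
        ring
      rw [h2]
      have h4 := wt_sq hqp.pos 2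
      have h3 : 0 ≤ C * X * wt m 1 * (12 * (1 / (q : ℝ)) * (1 / (q : ℝ) ^ 2)) := by positivity
      have h5 : C * X * (wt m 1 * wt (q ^ 2) (2 * q ^ 2)) ≤
          C * X * wt m 1 * (2 * (1 / (q : ℝ) ^ 2)) := by
        rw [← mul_assoc]
        refine mul_le_mul_of_nonneg_left ?_ (by positivity)
        refine h4.trans (le_of_eq ?_)
        push_cast
        ring
      linarith
    · rw [if_neg hql, add_zero]
      have hlq : l ≠ q := fun h => hql h.symm
      have hco1 : Nat.Coprime m q := mz_coprime hqp hzq'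
      have hco2 : Nat.Coprime (m * q) (l ^ 2) :=
        Nat.Coprime.pow_right 2 (Nat.Coprime.mul_left (mz_coprime hlp hzl)
          ((Nat.coprime_primes hqp hlp).2 hql))
      have hndvd : ¬ (l : ℤ) ∣ (q : ℤ) := by
        intro h
        have h1 : l ∣ q := by exact_mod_cast h
        exact hlq ((Nat.prime_dvd_prime_iff_eq hlp hqp).1 h1)
      have ho := (hofix.inter (occq (t := t) (c := c) hqp) hco1).inter (occ_res hls hndvd) hco2
      have h1 := ho.card_le (B c' q l) (tri t c X₁ X₂) hBsub (by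
        intro e he
        rw [hB, mem_filter] at he
        obtain ⟨he1, he2, he3, x, hx1, hx2, hx3⟩ := he
        refine ⟨⟨?_, toZ_mem he1, int_dvd_of_nat he3⟩, toZ_mem he1, ?_, ?_⟩
        · rw [← rd_lif m c'] at he2
          exact rd_eq_iff.1 he2
        · show (l : ℤ) ∣ MM t (e.1 : ℤ) e.2.1 (e.2.2 : ℤ) q
          rw [← hx1]
          exact hx2.mul_left _
        · rcases hx3 with h | h
          · left
            show (l : ℤ) ∣ (e.1 : ℤ) * (e.2.2 : ℤ)
            unfold NT at h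
            exact_mod_cast h
          · right
            show ((l ^ 2 : ℕ) : ℤ) ∣ MM t (e.1 : ℤ) e.2.1 (e.2.2 : ℤ) q
            rw [← hx1]
            push_cast
            exact h.mul_left _)
        (C * X * (Nat.totient (m * q * l ^ 2) : ℝ) / ((m * q * l ^ 2 : ℕ) : ℝ) ^ 3) (by positivity)
        (fun f _ => hEQ (m * q * l ^ 2) (Nat.one_le_iff_ne_zero.2
          (mul_ne_zero (mul_ne_zero hmpos.ne' hqp.ne_zero) (pow_ne_zero _ hlp.ne_zero))) (by
            push_cast
            have h5 : (m : ℝ) * q ≤ Real.log X := by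
              refine le_trans ?_ hmq2
              rw [pow_two]
              have : (q : ℝ) ≤ q * q := by nlinarith
              exact mul_le_mul_of_nonneg_left this (by positivity)
            have h6 : (l : ℝ) ^ 2 ≤ Real.log X ^ (2 * A) := by
              rw [mul_comm 2 A, pow_mul]
              exact pow_le_pow_left₀ hlpos.le hlR 2
            calc (m : ℝ) * q * (l : ℝ) ^ 2 ≤ Real.log X * Real.log X ^ (2 * A) :=
                  mul_le_mul h5 h6 (by positivity) (by linarith)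
              _ = Real.log X ^ (2 * A + 1) := by ring) (by
            intro r hr hrd
            rcases (Nat.Prime.dvd_mul hr).1 hrd with h | h
            · rcases (Nat.Prime.dvd_mul hr).1 h with h | h
              · exact mz_spl hr h
              · rw [(Nat.prime_dvd_prime_iff_eq hr hqp).1 h]
                exact hqs
            · rw [(Nat.prime_dvd_prime_iff_eq hr hlp).1 (hr.dvd_of_dvd_pow h)]
              exact hls) f)
      refine h1.trans ?_
      have h2 : ((1 * (2 * q) * (6 * l ^ 2) : ℕ) : ℝ) *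
          (C * X * (Nat.totient (m * q * l ^ 2) : ℝ) / ((m * q * l ^ 2 : ℕ) : ℝ) ^ 3) =
          C * X * wt m 1 * (wt q (2 * q) * wt (l ^ 2) (6 * l ^ 2)) := by
        rw [mul_assoc (C * X), ← mul_assoc (wt m 1), ← wt_mul hco1, ← wt_mul hco2]
        unfold wt
        ring
      rw [h2]
      refine mul_le_mul_of_nonneg_left ?_ (by positivity)
      calc wt q (2 * q) * wt (l ^ 2) (6 * l ^ 2) ≤ 2 / (q : ℝ) * ((6 : ℕ) / (l : ℝ) ^ 2) :=
            mul_le_mul (wt_q hqp.pos) (wt_sq hlp.pos 6) (wt_nonneg _ _) (by positivity)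
        _ = 12 * (1 / (q : ℝ)) * (1 / (l : ℝ) ^ 2) := by
            push_cast
            ring
  -- summation
  have hsumL : ∑ l ∈ L, 1 / (l : ℝ) ^ 2 ≤ 3 / (z * Real.log z) := by
    refine le_trans ?_ (tail_prime z (by omega) N)
    refine sum_le_sum_of_subset_of_nonneg ?_ (fun _ _ _ => by positivity)
    intro l hl
    rw [hLdef, mem_filter] at hl
    rw [mem_filter]
    exact ⟨hl.1, hl.2.1⟩
  have hstep : ∀ c' ∈ Γ, ∑ q ∈ Qc c', ∑ l ∈ L, ((B c' q l).card : ℝ) ≤
      C * X * wt m 1 * (38 * S / (z * Real.log z)) := by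
    intro c' _
    have h1 : ∀ q ∈ Qc c', ∑ l ∈ L, ((B c' q l).card : ℝ) ≤
        C * X * wt m 1 * (38 / (z * Real.log z)) * (1 / (q : ℝ)) := by
      intro q hq
      obtain ⟨hqp, hq4, hzq⟩ := hQ _ q hq
      have hqpos : (0 : ℝ) < q := by exact_mod_cast hqp.pos
      refine (sum_le_sum (hcardB c' q hq)).trans ?_
      rw [sum_add_distrib, ← mul_sum, ← mul_sum, sum_ite_eq]
      have h2 : (if q ∈ L then C * X * wt m 1 * (2 * (1 / (q : ℝ) ^ 2)) else 0) ≤
          C * X * wt m 1 * (2 / (z * Real.log z)) * (1 / (q : ℝ)) := by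
        have h3 : (2 : ℝ) * (1 / (q : ℝ) ^ 2) ≤ 2 / (z * Real.log z) * (1 / (q : ℝ)) := by
          have h5 : (z : ℝ) * Real.log z ≤ q := by
            have h6 : Real.log z ≤ z := by
              have := Real.log_le_sub_one_of_pos (x := (z : ℝ)) (by linarith)
              linarith
            have h7 : (z : ℝ) ^ 2 ≤ q := by exact_mod_cast hzq.le
            calc (z : ℝ) * Real.log z ≤ z * z := mul_le_mul_of_nonneg_left h6 (by linarith)
              _ = (z : ℝ) ^ 2 := by ring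
              _ ≤ q := h7
          have h6 : (2 : ℝ) * (1 / (q : ℝ) ^ 2) = 2 / (q : ℝ) * (1 / (q : ℝ)) := by
            field_simp
          rw [h6]
          refine mul_le_mul_of_nonneg_right ?_ (by positivity)
          exact div_le_div_of_nonneg_left (by norm_num) (by positivity) h5
        split_ifs
        · rw [mul_assoc (C * X * wt m 1)]
          exact mul_le_mul_of_nonneg_left h3 (by positivity)
        · positivity
      have h4 : C * X * wt m 1 * (12 * (1 / (q : ℝ)) * ∑ l ∈ L, 1 / (l : ℝ) ^ 2) ≤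
          C * X * wt m 1 * (12 * (1 / (q : ℝ)) * (3 / (z * Real.log z))) :=
        mul_le_mul_of_nonneg_left (mul_le_mul_of_nonneg_left hsumL (by positivity)) (by positivity)
      calc _ ≤ C * X * wt m 1 * (12 * (1 / (q : ℝ)) * (3 / (z * Real.log z))) +
            C * X * wt m 1 * (2 / (z * Real.log z)) * (1 / (q : ℝ)) := add_le_add h4 h2
        _ = _ := by ring
    refine (sum_le_sum h1).trans ?_
    rw [← mul_sum]
    have h5 := hQS (lif m c')
    calc _ ≤ C * X * wt m 1 * (38 / (z * Real.log z)) * S :=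
          mul_le_mul_of_nonneg_left h5 (by positivity)
      _ = _ := by ring
  have hcard1 : (s.card : ℝ) ≤ ∑ c' ∈ Γ, ∑ q ∈ Qc c', ∑ l ∈ L, ((B c' q l).card : ℝ) := by
    have h1 : s.card ≤ ∑ c' ∈ Γ, ∑ q ∈ Qc c', ∑ l ∈ L, (B c' q l).card := by
      refine (card_le_card hsub).trans (card_biUnion_le.trans (sum_le_sum fun c' _ => ?_))
      refine card_biUnion_le.trans (sum_le_sum fun q _ => ?_)
      exact card_biUnion_le
    exact_mod_cast h1
  refine hcard1.trans ((sum_le_sum hstep).trans ?_)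
  rw [sum_const, nsmul_eq_mul]
  calc (Γ.card : ℝ) * (C * X * wt m 1 * (38 * S / (z * Real.log z)))
      = ((Γ.card : ℝ) * wt m 1) * (C * X * (38 * S / (z * Real.log z))) := by ring
    _ ≤ (2 / (p : ℝ) ^ 2) * (C * X * (38 * S / (z * Real.log z))) := by
        refine mul_le_mul_of_nonneg_right hΓcard (by positivity)
    _ = 76 * C * S / (z * Real.log z) * X / (p : ℝ) ^ 2 := by
        field_simp
        ring

end Pool.Agent.W583.GT
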