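import Pool.Agent.W78.GT.Basic

/-!
Project GT (helper78), GT-5 and GT-9: residue classes of triples.
-/

set_option autoImplicit false

namespace Pool.Agent.W583.GT

open Finset Pool.Agent.W78.GT

/-- integer triples -/
abbrev Z3 := ℤ × ℤ × ℤ

def toZ (e : Tr) : Z3 := ((e.1 : ℤ), e.2.1, (e.2.2 : ℤ))

def CgZ (N : ℕ) (e f : Z3) : Prop :=
  (N : ℤ) ∣ e.1 - f.1 ∧ (N : ℤ) ∣ e.2.1 - f.2.1 ∧ (N : ℤ) ∣ e.2.2 - f.2.2

/-- the solutions of `d d' = Qp n` -/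
def RR (t c : ℤ) : Set Z3 := {e | e.1 * e.2.2 = Qp t c e.2.1}

/-- `S` meets at most `k` residue classes of triples modulo `N` -/
def Occ (S : Set Z3) (N k : ℕ) : Prop :=
  ∃ (β : Type) (T : Finset β) (f : Z3 → β), T.card ≤ k ∧ (∀ e ∈ S, f e ∈ T) ∧
    ∀ e ∈ S, ∀ e' ∈ S, f e = f e' → CgZ N e e'

lemma Occ.mono {S T : Set Z3} {N k j : ℕ} (h : Occ T N k) (hST : S ⊆ T)
    (hk : k ≤ j) : Occ S N j := by
  obtain ⟨β, U, f, h1, h2, h3⟩ := h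
  exact ⟨β, U, f, h1.trans hk, fun e he => h2 e (hST he),
    fun e he e' he' => h3 e (hST he) e' (hST he')⟩

lemma Occ.union {S T : Set Z3} {N k j : ℕ} (h : Occ S N k)
    (h' : Occ T N j) : Occ (S ∪ T) N (k + j) := by
  classical
  obtain ⟨β, U, f, h1, h2, h3⟩ := h
  obtain ⟨γ, V, g, g1, g2, g3⟩ := h'
  refine ⟨β ⊕ γ, U.disjSum V, fun e => if e ∈ S then Sum.inl (f e) else Sum.inr (g e), ?_, ?_, ?_⟩
  · rw [Finset.card_disjSum]; omega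
  · intro e he
    by_cases hS : e ∈ S
    · simp only [hS, if_true]
      exact Finset.inl_mem_disjSum.2 (h2 e hS)
    · simp only [hS, if_false]
      exact Finset.inr_mem_disjSum.2 (g2 e (he.resolve_left hS))
  · intro e he e' he' hee
    by_cases hS : e ∈ S <;> by_cases hS' : e' ∈ S
    · simp only [hS, hS', if_true] at hee
      exact h3 e hS e' hS' (Sum.inl_injective hee)
    · simp [hS, hS'] at hee
    · simp [hS, hS'] at hee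
    · simp only [hS, hS', if_false] at hee
      exact g3 e (he.resolve_left hS) e' (he'.resolve_left hS') (Sum.inr_injective hee)

lemma mul_dvd_of {N M : ℕ} (hco : Nat.Coprime N M) {z : ℤ}
    (h1 : (N : ℤ) ∣ z) (h2 : (M : ℤ) ∣ z) : ((N * M : ℕ) : ℤ) ∣ z := by
  have h4 : IsCoprime (N : ℤ) (M : ℤ) := Nat.isCoprime_iff_coprime.2 hco
  push_cast
  exact h4.mul_dvd h1 h2

lemma Occ.inter {S T : Set Z3} {N M k j : ℕ} (h : Occ S N k)
    (h' : Occ T M j) (hco : Nat.Coprime N M) : Occ (S ∩ T) (N * M) (k * j) := by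
  obtain ⟨β, U, f, h1, h2, h3⟩ := h
  obtain ⟨γ, V, g, g1, g2, g3⟩ := h'
  refine ⟨β × γ, U ×ˢ V, fun e => (f e, g e), ?_, ?_, ?_⟩
  · rw [Finset.card_product]; exact Nat.mul_le_mul h1 g1
  · intro e he
    exact Finset.mem_product.2 ⟨h2 e he.1, g2 e he.2⟩
  · intro e he e' he' hee
    have h5 := Prod.mk.inj hee
    obtain ⟨a1, a2, a3⟩ := h3 e he.1 e' he'.1 h5.1
    obtain ⟨b1, b2, b3⟩ := g3 e he.2 e' he'.2 h5.2
    exact ⟨mul_dvd_of hco a1 b1, mul_dvd_of hco a2 b2, mul_dvd_of hco a3 b3⟩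

lemma Occ.card_le {S : Set Z3} {N k : ℕ} (h : Occ S N k)
    (s t : Finset Tr) (hst : s ⊆ t) (hs : ∀ e ∈ s, toZ e ∈ S)
    (B : ℝ) (hB0 : 0 ≤ B)
    (hB : ∀ f ∈ s, (open scoped Classical in
      ((t.filter (fun e => Cg N e f)).card : ℝ)) ≤ B) :
    (s.card : ℝ) ≤ k * B := by
  classical
  obtain ⟨β, U, f, h1, h2, h3⟩ := h
  have h4 := Finset.card_eq_sum_card_fiberwise (f := fun e => f (toZ e)) (s := s) (t := U)
    (fun e he => h2 _ (hs e he))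
  have h5 : ∀ b ∈ U, (((s.filter (fun e => f (toZ e) = b)).card : ℕ) : ℝ) ≤ B := by
    intro b _
    rcases (s.filter (fun e => f (toZ e) = b)).eq_empty_or_nonempty with h5 | ⟨e₀, h5⟩
    · rw [h5]; simpa using hB0
    · have h6 := mem_filter.1 h5
      refine le_trans ?_ (hB e₀ h6.1)
      have : (s.filter (fun e => f (toZ e) = b)) ⊆ t.filter (fun e => Cg N e e₀) := by
        intro e he
        rw [mem_filter] at he
        rw [mem_filter]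
        exact ⟨hst he.1, h3 _ (hs e he.1) _ (hs e₀ h6.1) (he.2.trans h6.2.symm)⟩
      exact_mod_cast Finset.card_le_card this
  rw [h4]
  push_cast
  refine (Finset.sum_le_sum h5).trans ?_
  rw [sum_const, nsmul_eq_mul]
  refine mul_le_mul_of_nonneg_right ?_ hB0
  exact_mod_cast h1

/-- a class map -/
def rd (N : ℕ) (e : Tr) : ZMod N × ZMod N × ZMod N :=
  ((e.1 : ZMod N), (e.2.1 : ZMod N), (e.2.2 : ZMod N))

lemma dvd_of_cast {N : ℕ} {a b : ℤ} (h : (a : ZMod N) = (b : ZMod N)) : (N : ℤ) ∣ a - b := by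
  rw [← ZMod.intCast_zmod_eq_zero_iff_dvd]
  push_cast
  rw [h, sub_self]

lemma cast_of_dvd {N : ℕ} {a b : ℤ} (h : (N : ℤ) ∣ a - b) : (a : ZMod N) = (b : ZMod N) := by
  rw [← ZMod.intCast_zmod_eq_zero_iff_dvd] at h
  push_cast at h
  exact sub_eq_zero.1 h

lemma rd_eq_iff {N : ℕ} {e e' : Tr} : rd N e = rd N e' ↔ Cg N e e' := by
  unfold rd Cg
  rw [Prod.mk.injEq, Prod.mk.injEq]
  constructor
  · rintro ⟨h1, h2, h3⟩
    exact ⟨dvd_of_cast (by exact_mod_cast h1), dvd_of_cast h2, dvd_of_cast (by exact_mod_cast h3)⟩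
  · rintro ⟨h1, h2, h3⟩
    exact ⟨by exact_mod_cast cast_of_dvd h1, cast_of_dvd h2, by exact_mod_cast cast_of_dvd h3⟩

lemma Occ.card_image_le {S : Set Z3} {N k : ℕ} (h : Occ S N k)
    (s : Finset Tr) (hs : ∀ e ∈ s, toZ e ∈ S) :
    (open scoped Classical in (s.image (rd N)).card) ≤ k := by
  classical
  obtain ⟨β, U, f, h1, h2, h3⟩ := h
  refine le_trans ?_ h1
  have hex : ∀ c ∈ s.image (rd N), ∃ e ∈ s, rd N e = c := fun c hc => by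
    simpa using hc
  choose! r hr1 hr2 using hex
  refine Finset.card_le_card_of_injOn (fun c => f (toZ (r c)))
    (fun c hc => h2 _ (hs _ (hr1 c hc))) ?_
  intro c hc c' hc' hcc
  rw [← hr2 c hc, ← hr2 c' hc']
  exact rd_eq_iff.2 (h3 _ (hs _ (hr1 c hc)) _ (hs _ (hr1 c' hc')) hcc)

lemma occ_fix (N : ℕ) (f : Z3) : Occ {e | CgZ N e f} N 1 := by
  refine ⟨Unit, univ, fun _ => (), by simp, fun _ _ => mem_univ _, ?_⟩
  rintro e ⟨h1, h2, h3⟩ e' ⟨h4, h5, h6⟩ _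
  have k1 := dvd_sub h1 h4
  have k2 := dvd_sub h2 h5
  have k3 := dvd_sub h3 h6
  rw [sub_sub_sub_cancel_right] at k1 k2 k3
  exact ⟨k1, k2, k3⟩

/-- change of variables -/
lemma Occ.comap {S : Set Z3} {N k : ℕ} (h : Occ S N k) (g : Z3 → Z3)
    (hg : ∀ e e', CgZ N (g e) (g e') → CgZ N e e') : Occ {e | g e ∈ S} N k := by
  obtain ⟨β, U, f, h1, h2, h3⟩ := h
  exact ⟨β, U, fun e => f (g e), h1, fun e he => h2 _ he,
    fun e he e' he' hee => hg e e' (h3 _ he _ he' hee)⟩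

/-! ### elementary congruences -/

lemma digit {l : ℕ} {a b : ℤ} (h1 : (l : ℤ) ∣ a - b) (h2 : (l : ℤ) ∣ a / l - b / l) :
    ((l ^ 2 : ℕ) : ℤ) ∣ a - b := by
  have h3 : a % l = b % l :=
    Int.emod_eq_emod_iff_emod_sub_eq_zero.2 (Int.emod_eq_zero_of_dvd h1)
  have h4 := Int.mul_ediv_add_emod a l
  have h5 := Int.mul_ediv_add_emod b l
  obtain ⟨k, hk⟩ := h2
  refine ⟨k, ?_⟩
  push_cast
  have h6 : a - b = l * (a / l - b / l) := by
    linear_combination -h4 + h5 + h3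
  rw [h6, hk]
  ring

lemma int_prime {l : ℕ} (hl : l.Prime) : Prime (l : ℤ) := Nat.prime_iff_prime_int.1 hl

lemma sq_dvd_of_mul {l : ℕ} (hl : l.Prime) {a b : ℤ} (ha : ¬ (l : ℤ) ∣ a)
    (h : ((l ^ 2 : ℕ) : ℤ) ∣ a * b) : ((l ^ 2 : ℕ) : ℤ) ∣ b := by
  have h1 : IsCoprime ((l : ℤ) ^ 2) a :=
    IsCoprime.pow_left ((Prime.coprime_iff_not_dvd (int_prime hl)).2 ha)
  push_cast at h ⊢
  exact h1.dvd_of_dvd_mul_left h

variable {t c : ℤ}

lemma hensel {l : ℕ} (hl : l.Prime) {n n' : ℤ} (hu : ¬ (l : ℤ) ∣ 2 * n + t)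
    (h1 : (l : ℤ) ∣ n - n') (h2 : ((l ^ 2 : ℕ) : ℤ) ∣ Qp t c n - Qp t c n') :
    ((l ^ 2 : ℕ) : ℤ) ∣ n - n' := by
  refine sq_dvd_of_mul hl (a := n + n' + t) (fun h => hu ?_) ?_
  · have := dvd_add h h1
    have e : n + n' + t + (n - n') = 2 * n + t := by ring
    rwa [e] at this
  · have e : (n + n' + t) * (n - n') = Qp t c n - Qp t c n' := by unfold Qp; ring
    rwa [e]

lemma unit_of_root {l : ℕ} (h2 : ¬ (l : ℤ) ∣ 2 * (t ^ 2 - 4 * c)) {n : ℤ}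
    (h : (l : ℤ) ∣ Qp t c n) : ¬ (l : ℤ) ∣ 2 * n + t := by
  intro h1
  apply h2
  have e : 2 * (t ^ 2 - 4 * c) = (2 * n + t) * (2 * (2 * n + t)) - Qp t c n * 8 := by
    unfold Qp; ring
  rw [e]
  exact dvd_sub (h1.mul_right _) (h.mul_right _)

/-- roots modulo `l` -/
def rt (t c : ℤ) (l : ℕ) [NeZero l] : Finset (ZMod l) :=
  univ.filter (fun r => r ^ 2 + t * r + c = 0)

lemma mem_rt {l : ℕ} [NeZero l] {n : ℤ} (h : (l : ℤ) ∣ Qp t c n) : (n : ZMod l) ∈ rt t c l := by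
  unfold rt
  rw [mem_filter]
  refine ⟨mem_univ _, ?_⟩
  rw [← ZMod.intCast_zmod_eq_zero_iff_dvd] at h
  unfold Qp at h
  push_cast at h
  exact h

lemma rt_card {l : ℕ} (hl : l.Prime) [NeZero l] : (rt t c l).card ≤ 2 := by
  have : Fact l.Prime := ⟨hl⟩
  set P : Polynomial (ZMod l) := Polynomial.X ^ 2 + (Polynomial.C (t : ZMod l) * Polynomial.X +
    Polynomial.C (c : ZMod l)) with hP
  have hlin : (Polynomial.C (t : ZMod l) * Polynomial.X + Polynomial.C (c : ZMod l)).degree < 2 :=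
    lt_of_le_of_lt Polynomial.degree_linear_le (by norm_num)
  have hdeg : P.degree = 2 := by
    rw [hP, Polynomial.degree_add_eq_left_of_degree_lt]
    · exact Polynomial.degree_X_pow 2
    · rw [Polynomial.degree_X_pow]; exact hlin
  have hP0 : P ≠ 0 := by
    intro h
    rw [h, Polynomial.degree_zero] at hdeg
    exact absurd hdeg (by simp)
  have hnat : P.natDegree = 2 := Polynomial.natDegree_eq_of_degree_eq_some hdeg
  have h1 : rt t c l ⊆ P.roots.toFinset := by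
    intro r hr
    unfold rt at hr
    rw [mem_filter] at hr
    rw [Multiset.mem_toFinset, Polynomial.mem_roots hP0, Polynomial.IsRoot]
    rw [hP]
    simp only [Polynomial.eval_add, Polynomial.eval_pow, Polynomial.eval_X, Polynomial.eval_mul,
      Polynomial.eval_C]
    rw [← hr.2]
    ring
  calc (rt t c l).card ≤ P.roots.toFinset.card := card_le_card h1
    _ ≤ Multiset.card P.roots := Multiset.toFinset_card_le _
    _ ≤ P.natDegree := Polynomial.card_roots' _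
    _ = 2 := hnat

/-! ### the classes -/

/-- `l² ∣ d` -/
lemma occA {l : ℕ} (hl : Spl t c l) :
    Occ {e | e ∈ RR t c ∧ ((l ^ 2 : ℕ) : ℤ) ∣ e.1} (l ^ 2) (2 * l ^ 2) := by
  have hlp := hl.1
  have : NeZero l := ⟨hlp.ne_zero⟩
  have : NeZero (l ^ 2) := ⟨pow_ne_zero 2 hlp.ne_zero⟩
  have hdl : ∀ z : ℤ, ((l ^ 2 : ℕ) : ℤ) ∣ z → (l : ℤ) ∣ z := fun z hz =>
    dvd_trans (by push_cast; exact dvd_pow_self _ two_ne_zero) hz
  refine ⟨ZMod l × ZMod (l ^ 2), rt t c l ×ˢ univ,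
    fun e => ((e.2.1 : ZMod l), (e.2.2 : ZMod (l ^ 2))), ?_, ?_, ?_⟩
  · rw [card_product, card_univ, ZMod.card]
    exact Nat.mul_le_mul_right _ (rt_card hlp)
  · rintro e ⟨h1, h2⟩
    refine mem_product.2 ⟨mem_rt ?_, mem_univ _⟩
    have h3 : e.1 * e.2.2 = Qp t c e.2.1 := h1
    rw [← h3]
    exact (hdl _ h2).mul_right _
  · rintro e ⟨h1, h2⟩ e' ⟨h3, h4⟩ hee
    have h1' : e.1 * e.2.2 = Qp t c e.2.1 := h1
    have h3' : e'.1 * e'.2.2 = Qp t c e'.2.1 := h3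
    have h5 := Prod.mk.inj hee
    have h6 : ((l ^ 2 : ℕ) : ℤ) ∣ Qp t c e.2.1 - Qp t c e'.2.1 := by
      rw [← h1', ← h3']
      exact dvd_sub (h2.mul_right _) (h4.mul_right _)
    refine ⟨dvd_sub h2 h4, hensel hlp (unit_of_root hl.2.1 ?_) (dvd_of_cast h5.1) h6,
      dvd_of_cast h5.2⟩
    rw [← h1']
    exact (hdl _ h2).mul_right _

/-- `l² ∣ d'` -/
lemma occA' {l : ℕ} (hl : Spl t c l) :
    Occ {e | e ∈ RR t c ∧ ((l ^ 2 : ℕ) : ℤ) ∣ e.2.2} (l ^ 2) (2 * l ^ 2) := by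
  refine ((occA hl).comap (fun e => (e.2.2, e.2.1, e.1)) ?_).mono ?_ le_rfl
  · rintro e e' ⟨h1, h2, h3⟩
    exact ⟨h3, h2, h1⟩
  · rintro e ⟨h1, h2⟩
    refine ⟨?_, h2⟩
    have h1' : e.1 * e.2.2 = Qp t c e.2.1 := h1
    show e.2.2 * e.1 = Qp t c e.2.1
    rw [mul_comm, h1']

/-- a general lemma: `n` is a root modulo `l` and determines `d` and `d'` modulo `l` -/
lemma occG {l : ℕ} (hl : Spl t c l) (S : Set Z3) (hS : S ⊆ RR t c)
    (h1 : ∀ e ∈ S, (l : ℤ) ∣ Qp t c e.2.1)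
    (h2 : ∀ e ∈ S, ∀ e' ∈ S, (l : ℤ) ∣ e.2.1 - e'.2.1 →
      (l : ℤ) ∣ e.1 - e'.1 ∧ (l : ℤ) ∣ e.2.2 - e'.2.2) :
    Occ S (l ^ 2) (2 * l ^ 2) := by
  have hlp := hl.1
  have : NeZero l := ⟨hlp.ne_zero⟩
  refine ⟨ZMod l × ZMod l × ZMod l, rt t c l ×ˢ (univ ×ˢ univ),
    fun e => ((e.2.1 : ZMod l), ((e.1 / l : ℤ) : ZMod l), ((e.2.2 / l : ℤ) : ZMod l)), ?_, ?_, ?_⟩
  · rw [card_product, card_product, card_univ, ZMod.card, pow_two]
    exact Nat.mul_le_mul_right _ (rt_card hlp)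
  · intro e he
    exact mem_product.2 ⟨mem_rt (h1 e he), mem_product.2 ⟨mem_univ _, mem_univ _⟩⟩
  · intro e he e' he' hee
    obtain ⟨g1, g2⟩ := Prod.mk.inj hee
    obtain ⟨g2, g3⟩ := Prod.mk.inj g2
    have k1 := dvd_of_cast g1
    obtain ⟨k2, k3⟩ := h2 e he e' he' k1
    have m1 := digit k2 (dvd_of_cast g2)
    have m2 := digit k3 (dvd_of_cast g3)
    refine ⟨m1, hensel (t := t) (c := c) hlp (unit_of_root hl.2.1 (h1 e he)) k1 ?_, m2⟩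
    have e1 : e.1 * e.2.2 = Qp t c e.2.1 := hS he
    have e2 : e'.1 * e'.2.2 = Qp t c e'.2.1 := hS he'
    rw [← e1, ← e2]
    have e3 : e.1 * e.2.2 - e'.1 * e'.2.2 = (e.1 - e'.1) * e.2.2 + e'.1 * (e.2.2 - e'.2.2) := by
      ring
    rw [e3]
    exact dvd_add (m1.mul_right _) (m2.mul_left _)

/-- `l ∣ d`, `l ∣ d'` -/
lemma occC {l : ℕ} (hl : Spl t c l) :
    Occ {e | e ∈ RR t c ∧ (l : ℤ) ∣ e.1 ∧ (l : ℤ) ∣ e.2.2} (l ^ 2) (2 * l ^ 2) := by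
  refine occG hl _ (fun e he => he.1) ?_ ?_
  · rintro e ⟨h1, h2, h3⟩
    have e1 : e.1 * e.2.2 = Qp t c e.2.1 := h1
    rw [← e1]
    exact h2.mul_right _
  · rintro e ⟨h1, h2, h3⟩ e' ⟨h4, h5, h6⟩ _
    exact ⟨dvd_sub h2 h5, dvd_sub h3 h6⟩

/-- classes with `l² ∣ d d'` -/
lemma occ_sq {l : ℕ} (hl : Spl t c l) :
    Occ {e | e ∈ RR t c ∧ ((l ^ 2 : ℕ) : ℤ) ∣ e.1 * e.2.2} (l ^ 2) (6 * l ^ 2) := by
  refine (((occA hl).union (occA' hl)).union (occC hl)).mono ?_ (by omega)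
  rintro e ⟨h1, h2⟩
  by_cases ha : (l : ℤ) ∣ e.1
  · by_cases hb : (l : ℤ) ∣ e.2.2
    · exact Or.inr ⟨h1, ha, hb⟩
    · refine Or.inl (Or.inl ⟨h1, sq_dvd_of_mul hl.1 hb ?_⟩)
      rw [mul_comm]; exact h2
  · exact Or.inl (Or.inr ⟨h1, sq_dvd_of_mul hl.1 ha h2⟩)

/-- `l ∣ d`, `l ∣ MM` -/
lemma occD {l q : ℕ} (hl : Spl t c l) (hq : ¬ (l : ℤ) ∣ (q : ℤ)) :
    Occ {e | e ∈ RR t c ∧ (l : ℤ) ∣ e.1 ∧ (l : ℤ) ∣ MM t e.1 e.2.1 e.2.2 q}
      (l ^ 2) (2 * l ^ 2) := by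
  have hp := int_prime hl.1
  refine occG hl _ (fun e he => he.1) ?_ ?_
  · rintro e ⟨h1, h2, h3⟩
    have e1 : e.1 * e.2.2 = Qp t c e.2.1 := h1
    rw [← e1]
    exact h2.mul_right _
  · rintro e ⟨h1, h2, h3⟩ e' ⟨h4, h5, h6⟩ h7
    refine ⟨dvd_sub h2 h5, ?_⟩
    have h8 := dvd_sub h3 h6
    have e1 : MM t e.1 e.2.1 e.2.2 q - MM t e'.1 e'.2.1 e'.2.2 q =
        (e.1 - e'.1) + 2 * q * (e.2.1 - e'.2.1) + (q : ℤ) ^ 2 * (e.2.2 - e'.2.2) := by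
      unfold MM; ring
    rw [e1] at h8
    have h9 : (l : ℤ) ∣ (q : ℤ) ^ 2 * (e.2.2 - e'.2.2) :=
      (dvd_add_right (dvd_add (dvd_sub h2 h5) (h7.mul_left _))).1 h8
    rcases hp.dvd_or_dvd h9 with h | h
    · exact absurd (hp.dvd_of_dvd_pow h) hq
    · exact h

/-- `l ∣ d'`, `l ∣ MM` -/
lemma occE {l q : ℕ} (hl : Spl t c l) :
    Occ {e | e ∈ RR t c ∧ (l : ℤ) ∣ e.2.2 ∧ (l : ℤ) ∣ MM t e.1 e.2.1 e.2.2 q}
      (l ^ 2) (2 * l ^ 2) := by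
  refine occG hl _ (fun e he => he.1) ?_ ?_
  · rintro e ⟨h1, h2, h3⟩
    have e1 : e.1 * e.2.2 = Qp t c e.2.1 := h1
    rw [← e1]
    exact h2.mul_left _
  · rintro e ⟨h1, h2, h3⟩ e' ⟨h4, h5, h6⟩ h7
    refine ⟨?_, dvd_sub h2 h5⟩
    have h8 := dvd_sub h3 h6
    have e1 : MM t e.1 e.2.1 e.2.2 q - MM t e'.1 e'.2.1 e'.2.2 q =
        (e.1 - e'.1) + (2 * q * (e.2.1 - e'.2.1) + (q : ℤ) ^ 2 * (e.2.2 - e'.2.2)) := by
      unfold MM; ring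
    rw [e1] at h8
    exact (dvd_add_left (dvd_add (h7.mul_left _) ((dvd_sub h2 h5).mul_left _))).1 h8

/-- `l² ∣ MM` -/
lemma occF {l q : ℕ} (hl : Spl t c l) :
    Occ {e | e ∈ RR t c ∧ ((l ^ 2 : ℕ) : ℤ) ∣ MM t e.1 e.2.1 e.2.2 q}
      (l ^ 2) (2 * l ^ 2) := by
  refine ((occA hl).comap (fun e => (MM t e.1 e.2.1 e.2.2 q, e.2.1 + q * e.2.2, e.2.2)) ?_).mono
    ?_ le_rfl
  · rintro e e' ⟨h1, h2, h3⟩
    simp only at h1 h2 h3
    have k2 : ((l ^ 2 : ℕ) : ℤ) ∣ e.2.1 - e'.2.1 := by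
      have := dvd_sub h2 (h3.mul_left (q : ℤ))
      have e1 : e.2.1 + q * e.2.2 - (e'.2.1 + q * e'.2.2) - q * (e.2.2 - e'.2.2) =
        e.2.1 - e'.2.1 := by ring
      rwa [e1] at this
    refine ⟨?_, k2, h3⟩
    have := dvd_sub h1 (dvd_add (k2.mul_left (2 * q : ℤ)) (h3.mul_left ((q : ℤ) ^ 2)))
    have e1 : MM t e.1 e.2.1 e.2.2 q - MM t e'.1 e'.2.1 e'.2.2 q -
        (2 * q * (e.2.1 - e'.2.1) + (q : ℤ) ^ 2 * (e.2.2 - e'.2.2)) = e.1 - e'.1 := by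
      unfold MM; ring
    rwa [e1] at this
  · rintro e ⟨h1, h2⟩
    refine ⟨?_, h2⟩
    have e1 : e.1 * e.2.2 = Qp t c e.2.1 := h1
    show MM t e.1 e.2.1 e.2.2 q * e.2.2 = Qp t c (e.2.1 + q * e.2.2)
    unfold MM Qp at *
    linear_combination e1

/-- the classes for the resolution, `l ≠ q` -/
lemma occ_res {l q : ℕ} (hl : Spl t c l) (hq : ¬ (l : ℤ) ∣ (q : ℤ)) :
    Occ {e | e ∈ RR t c ∧ (l : ℤ) ∣ MM t e.1 e.2.1 e.2.2 q ∧
      ((l : ℤ) ∣ e.1 * e.2.2 ∨ ((l ^ 2 : ℕ) : ℤ) ∣ MM t e.1 e.2.1 e.2.2 q)}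
      (l ^ 2) (6 * l ^ 2) := by
  refine (((occD hl hq).union (occE (q := q) hl)).union (occF (q := q) hl)).mono ?_ (by omega)
  rintro e ⟨h1, h2, h3⟩
  rcases h3 with h3 | h3
  · rcases (int_prime hl.1).dvd_or_dvd h3 with h | h
    · exact Or.inl (Or.inl ⟨h1, h, h2⟩)
    · exact Or.inl (Or.inr ⟨h1, h, h2⟩)
  · exact Or.inr ⟨h1, h3⟩

/-- `q ∣ d` -/
lemma occq {q : ℕ} (hq : q.Prime) :
    Occ {e | e ∈ RR t c ∧ (q : ℤ) ∣ e.1} q (2 * q) := by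
  have : NeZero q := ⟨hq.ne_zero⟩
  refine ⟨ZMod q × ZMod q, rt t c q ×ˢ univ, fun e => ((e.2.1 : ZMod q), (e.2.2 : ZMod q)), ?_, ?_, ?_⟩
  · rw [card_product, card_univ, ZMod.card]
    exact Nat.mul_le_mul_right _ (rt_card hq)
  · rintro e ⟨h1, h2⟩
    refine mem_product.2 ⟨mem_rt ?_, mem_univ _⟩
    have h3 : e.1 * e.2.2 = Qp t c e.2.1 := h1
    rw [← h3]
    exact h2.mul_right _
  · rintro e ⟨h1, h2⟩ e' ⟨h3, h4⟩ hee
    have h5 := Prod.mk.inj hee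
    exact ⟨dvd_sub h2 h4, dvd_of_cast h5.1, dvd_of_cast h5.2⟩

/-- `q ∣ d`, `q² ∣ MM` -/
lemma occqq {q : ℕ} (hq : Spl t c q) :
    Occ {e | e ∈ RR t c ∧ (q : ℤ) ∣ e.1 ∧ ((q ^ 2 : ℕ) : ℤ) ∣ MM t e.1 e.2.1 e.2.2 q}
      (q ^ 2) (2 * q ^ 2) := by
  have hqp := hq.1
  have : NeZero q := ⟨hqp.ne_zero⟩
  have : NeZero (q ^ 2) := ⟨pow_ne_zero 2 hqp.ne_zero⟩
  refine ⟨ZMod q × ZMod (q ^ 2), rt t c q ×ˢ univ,
    fun e => ((e.2.1 : ZMod q), (e.2.2 : ZMod (q ^ 2))), ?_, ?_, ?_⟩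
  · rw [card_product, card_univ, ZMod.card]
    exact Nat.mul_le_mul_right _ (rt_card hqp)
  · rintro e ⟨h1, h2, h2'⟩
    refine mem_product.2 ⟨mem_rt ?_, mem_univ _⟩
    have h3 : e.1 * e.2.2 = Qp t c e.2.1 := h1
    rw [← h3]
    exact h2.mul_right _
  · rintro e ⟨h1, h2, h2'⟩ e' ⟨h3, h4, h4'⟩ hee
    have h1' : e.1 * e.2.2 = Qp t c e.2.1 := h1
    have h3' : e'.1 * e'.2.2 = Qp t c e'.2.1 := h3
    have h5 := Prod.mk.inj hee
    have k1 := dvd_of_cast h5.1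
    have k2 := dvd_of_cast h5.2
    have k3 : ((q ^ 2 : ℕ) : ℤ) ∣ 2 * (q * (e.2.1 - e'.2.1)) := by
      obtain ⟨j, hj⟩ := k1
      refine Dvd.dvd.mul_left ⟨j, ?_⟩ _
      rw [hj]; push_cast; ring
    have k4 : ((q ^ 2 : ℕ) : ℤ) ∣ e.1 - e'.1 := by
      have := dvd_sub (dvd_sub h2' h4') (dvd_add k3 (k2.mul_left ((q : ℤ) ^ 2)))
      have e1 : MM t e.1 e.2.1 e.2.2 q - MM t e'.1 e'.2.1 e'.2.2 q -
          (2 * (q * (e.2.1 - e'.2.1)) + (q : ℤ) ^ 2 * (e.2.2 - e'.2.2)) = e.1 - e'.1 := by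
        unfold MM; ring
      rwa [e1] at this
    refine ⟨k4, hensel (c := c) hqp (unit_of_root hq.2.1 ?_) k1 ?_, k2⟩
    · rw [← h1']
      exact h2.mul_right _
    · rw [← h1', ← h3']
      have e3 : e.1 * e.2.2 - e'.1 * e'.2.2 = (e.1 - e'.1) * e.2.2 + e'.1 * (e.2.2 - e'.2.2) := by
        ring
      rw [e3]
      exact dvd_add (k4.mul_right _) (k2.mul_left _)

/-- all classes modulo `l²` -/
lemma occ_all {l : ℕ} (hl : Spl t c l) : Occ (RR t c) (l ^ 2) (l ^ 4 + l ^ 3) := by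
  classical
  have hlp := hl.1
  have : NeZero l := ⟨hlp.ne_zero⟩
  have : NeZero (l ^ 2) := ⟨pow_ne_zero 2 hlp.ne_zero⟩
  have o1 : Occ {e | e ∈ RR t c ∧ ¬ (l : ℤ) ∣ e.1} (l ^ 2) (l * (l - 1) * l ^ 2) := by
    refine ⟨ZMod (l ^ 2) × ZMod (l ^ 2),
      (univ.image (fun u : (ZMod (l ^ 2))ˣ => (u : ZMod (l ^ 2)))) ×ˢ univ,
      fun e => ((e.1 : ZMod (l ^ 2)), (e.2.1 : ZMod (l ^ 2))), ?_, ?_, ?_⟩
    · rw [card_product, card_univ, ZMod.card]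
      refine Nat.mul_le_mul_right _ (card_image_le.trans ?_)
      rw [card_univ, ZMod.card_units_eq_totient, Nat.totient_prime_pow hlp (by norm_num)]
      simp
    · rintro e ⟨h1, h2⟩
      refine mem_product.2 ⟨?_, mem_univ _⟩
      rw [mem_image]
      have hco : IsCoprime e.1 ((l ^ 2 : ℕ) : ℤ) := by
        push_cast
        exact ((IsCoprime.pow_left ((Prime.coprime_iff_not_dvd (int_prime hlp)).2 h2))).symm
      have hunit : IsUnit ((e.1 : ℤ) : ZMod (l ^ 2)) := by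
        obtain ⟨a, b, hab⟩ := hco
        refine IsUnit.of_mul_eq_one (a : ZMod (l ^ 2)) ?_
        have := congrArg (fun z : ℤ => (z : ZMod (l ^ 2))) hab
        simp only [Int.cast_add, Int.cast_mul, Int.cast_natCast, ZMod.natCast_self, mul_zero,
          add_zero, Int.cast_one] at this
        rw [mul_comm]
        exact this
      exact ⟨hunit.unit, mem_univ _, hunit.unit_spec⟩
    · rintro e ⟨h1, h2⟩ e' ⟨h3, h4⟩ hee
      have h1' : e.1 * e.2.2 = Qp t c e.2.1 := h1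
      have h3' : e'.1 * e'.2.2 = Qp t c e'.2.1 := h3
      have h5 := Prod.mk.inj hee
      have k1 := dvd_of_cast h5.1
      have k2 := dvd_of_cast h5.2
      refine ⟨k1, k2, sq_dvd_of_mul hlp h2 ?_⟩
      have k3 := Qp_congr (t := t) (c := c) k2
      rw [← h1', ← h3'] at k3
      have e3 : e.1 * (e.2.2 - e'.2.2) = (e.1 * e.2.2 - e'.1 * e'.2.2) -
        (e.1 - e'.1) * e'.2.2 := by ring
      rw [e3]
      exact dvd_sub k3 (k1.mul_right _)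
  have o2 : Occ {e | e ∈ RR t c ∧ (l : ℤ) ∣ e.1} (l ^ 2) (2 * (l * l ^ 2)) := by
    refine ⟨ZMod l × ZMod l × ZMod (l ^ 2), rt t c l ×ˢ (univ ×ˢ univ),
      fun e => ((e.2.1 : ZMod l), ((e.1 / l : ℤ) : ZMod l), (e.2.2 : ZMod (l ^ 2))), ?_, ?_, ?_⟩
    · rw [card_product, card_product, card_univ, card_univ, ZMod.card, ZMod.card]
      exact Nat.mul_le_mul_right _ (rt_card hlp)
    · rintro e ⟨h1, h2⟩
      have h3 : e.1 * e.2.2 = Qp t c e.2.1 := h1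
      refine mem_product.2 ⟨mem_rt ?_, mem_product.2 ⟨mem_univ _, mem_univ _⟩⟩
      rw [← h3]
      exact h2.mul_right _
    · rintro e ⟨h1, h2⟩ e' ⟨h3, h4⟩ hee
      obtain ⟨g1, g2⟩ := Prod.mk.inj hee
      obtain ⟨g2, g3⟩ := Prod.mk.inj g2
      have h1' : e.1 * e.2.2 = Qp t c e.2.1 := h1
      have h3' : e'.1 * e'.2.2 = Qp t c e'.2.1 := h3
      have m1 := digit (dvd_sub h2 h4) (dvd_of_cast g2)
      have m2 := dvd_of_cast g3
      refine ⟨m1, hensel (t := t) (c := c) hlp (unit_of_root hl.2.1 ?_) (dvd_of_cast g1) ?_, m2⟩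
      · rw [← h1']
        exact h2.mul_right _
      · rw [← h1', ← h3']
        have e3 : e.1 * e.2.2 - e'.1 * e'.2.2 = (e.1 - e'.1) * e.2.2 + e'.1 * (e.2.2 - e'.2.2) := by
          ring
        rw [e3]
        exact dvd_add (m1.mul_right _) (m2.mul_left _)
  refine (o1.union o2).mono ?_ ?_
  · intro e he
    by_cases h : (l : ℤ) ∣ e.1
    · exact Or.inr ⟨he, h⟩
    · exact Or.inl ⟨he, h⟩
  · obtain ⟨k, rfl⟩ : ∃ k, l = k + 1 := ⟨l - 1, by have := hlp.one_lt; omega⟩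
    rw [Nat.add_sub_cancel]
    apply le_of_eq
    ring

end Pool.Agent.W583.GT
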